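import Mathlib
import Pool.Agent.Lib.MP_2064c1_nt.Main

open Finset

namespace Pool.Agent.Results.MP_2064c1_nt.SumModSquare

/-- For every prime `p` with `p % 3 = 1`, with `a n = ∑_{0 ≤ j ≤ n} C(n+j,j) C(n,j) C(n-j,j)`,
`a 0 + ... + a (p-1) ≡ C(2m, m) (mod p^2)` where `m = (p-1)/3`. -/
theorem result (p : ℕ) (hp : p.Prime) (hp3 : p % 3 = 1) :
    (∑ n ∈ range p, ∑ j ∈ range (n + 1),
      Nat.choose (n + j) j * Nat.choose n j * Nat.choose (n - j) j)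
      ≡ Nat.choose (2 * ((p - 1) / 3)) ((p - 1) / 3) [MOD p ^ 2] :=
  Pool.Agent.Lib.MP_2064c1_nt.main p hp hp3

end Pool.Agent.Results.MP_2064c1_nt.SumModSquare
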